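import Pool.Agent.Helper96.ME.Lib

/-!
# MP_bde085_nt, block E: module CUS
-/

set_option autoImplicit false

namespace Pool.Agent.Helper96.ME

open Pool.Agent.Helper96.MP
open scoped MatrixGroups

open Lib

section cus

variable (p : ℕ) [Fact p.Prime]

/-- Fourier component -/
noncomputable def cus_e (k : ZMod p) (w : SL(2, ZMod p) → ℂ) : SL(2, ZMod p) → ℂ :=
  fun y => (p : ℂ)⁻¹ * ∑ b : ZMod p, ZMod.stdAddChar (-(k * b)) * w (y * un b)

theorem cus_p0 : (p : ℂ) ≠ 0 := by
  exact_mod_cast (Fact.out : p.Prime).ne_zero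

theorem cus_char (c : ZMod p) :
    ∑ b : ZMod p, (ZMod.stdAddChar (b * c) : ℂ) = if c = 0 then (p : ℂ) else 0 := by
  rw [AddChar.sum_mulShift c (ZMod.isPrimitive_stdAddChar p), ZMod.card]
  split_ifs <;> simp

theorem cus_sum (w : SL(2, ZMod p) → ℂ) : ∑ k : ZMod p, cus_e p k w = w := by
  funext y
  rw [Finset.sum_apply]
  unfold cus_e
  rw [← Finset.mul_sum, Finset.sum_comm]
  have h1 : ∀ b : ZMod p, ∑ k : ZMod p, ZMod.stdAddChar (-(k * b)) * w (y * un b) =
      (if b = 0 then (p : ℂ) else 0) * w (y * un b) := by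
    intro b
    rw [← Finset.sum_mul]
    congr 1
    have h2 := cus_char p (-b)
    simp only [neg_eq_zero] at h2
    rw [← h2]
    apply Finset.sum_congr rfl
    intro k _
    rw [mul_neg]
  rw [Finset.sum_congr rfl (fun b _ => h1 b)]
  simp only [ite_mul, zero_mul, Finset.sum_ite_eq', Finset.mem_univ, if_true]
  rw [un_zero, mul_one, ← mul_assoc, inv_mul_cancel₀ (cus_p0 p), one_mul]

theorem cus_shift (k : ZMod p) (w : SL(2, ZMod p) → ℂ) (c : ZMod p) (y : SL(2, ZMod p)) :
    cus_e p k w (y * un c) = ZMod.stdAddChar (k * c) * cus_e p k w y := by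
  unfold cus_e
  rw [mul_left_comm]
  congr 1
  rw [Finset.mul_sum]
  apply Fintype.sum_equiv (Equiv.addLeft c)
  intro b
  rw [Equiv.coe_addLeft, mul_assoc, ← un_add, ← mul_assoc, ← AddChar.map_add_eq_mul]
  congr 2
  ring

variable {p}

theorem cus_mem {U : Submodule ℂ (SL(2, ZMod p) → ℂ)}
    (htr : ∀ w ∈ U, ∀ h : SL(2, ZMod p), (fun y => w (y * h)) ∈ U) (k : ZMod p)
    (w : SL(2, ZMod p) → ℂ) (hw : w ∈ U) : cus_e p k w ∈ U := by
  have h1 : cus_e p k w = (p : ℂ)⁻¹ • ∑ b : ZMod p, (ZMod.stdAddChar (-(k * b)) : ℂ) •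
      (fun y => w (y * un b)) := by
    funext y
    unfold cus_e
    rw [Pi.smul_apply, Finset.sum_apply, smul_eq_mul]
    rfl
  rw [h1]
  exact U.smul_mem _ (U.sum_mem fun b _ => U.smul_mem _ (htr w hw _))

/-- the key identity -/
theorem cus_key (k : ZMod p) (hk : k ≠ 0) (w : SL(2, ZMod p) → ℂ)
    (hw : ∀ (c : ZMod p) (y : SL(2, ZMod p)), w (y * un c) = ZMod.stdAddChar (k * c) * w y) :
    cus_e p k (fun y => ∑ u : (ZMod p)ˣ, w (sg u y)) = w := by
  funext y
  unfold cus_e
  have h1 : ∀ b : ZMod p, ZMod.stdAddChar (-(k * b)) * ∑ u : (ZMod p)ˣ, w (sg u (y * un b)) =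
      ∑ u : (ZMod p)ˣ, (ZMod.stdAddChar (b * (k * ((u : ZMod p) - 1))) : ℂ) * w (sg u y) := by
    intro b
    rw [Finset.mul_sum]
    apply Finset.sum_congr rfl
    intro u _
    rw [sg_mul, sg_un, hw, ← mul_assoc, ← AddChar.map_add_eq_mul]
    congr 2
    ring
  rw [Finset.sum_congr rfl (fun b _ => h1 b), Finset.sum_comm]
  have h2 : ∀ u : (ZMod p)ˣ, ∑ b : ZMod p,
      (ZMod.stdAddChar (b * (k * ((u : ZMod p) - 1))) : ℂ) * w (sg u y) =
      if u = 1 then (p : ℂ) * w (sg u y) else 0 := by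
    intro u
    rw [← Finset.sum_mul, cus_char]
    by_cases hu : u = 1
    · rw [if_pos hu, if_pos]
      rw [hu, Units.val_one, sub_self, mul_zero]
    · rw [if_neg hu, if_neg, zero_mul]
      intro h0
      rcases mul_eq_zero.1 h0 with h0 | h0
      · exact hk h0
      · exact hu (Units.ext (by rw [Units.val_one]; exact sub_eq_zero.1 h0))
  rw [Finset.sum_congr rfl (fun u _ => h2 u), Finset.sum_ite_eq', if_pos (Finset.mem_univ _),
    sg_one, ← mul_assoc, inv_mul_cancel₀ (cus_p0 p), one_mul]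

end cus

theorem st_CUS (hSPA : ST_SPA) : ST_CUS := by
  intro p hp φ hφ U hU hN
  have : Fact p.Prime := ⟨hp⟩
  obtain ⟨_, _, _, _, _, hs⟩ := hSPA (ZMod p) φ hφ
  have htr : ∀ w ∈ U, ∀ h : SL(2, ZMod p), (fun y => w (y * h)) ∈ U := by
    intro w hw h
    exact (hU _).2 ((hs ℂ w ((hU w).1 hw)).1 h)
  have hsg : ∀ w ∈ U, ∀ u : (ZMod p)ˣ, (fun y => w (sg u y)) ∈ U := by
    intro w hw u
    exact (hU _).2 ((hs ℂ w ((hU w).1 hw)).2.1 u)
  have hlast : ∀ w ∈ U, (∀ (u : (ZMod p)ˣ) (y : SL(2, ZMod p)), w (sg u y) = w y) →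
      ∀ y, w y = φ y • w 1 := by
    intro w hw
    exact (hs ℂ w ((hU w).1 hw)).2.2.2.2.2
  let E : ZMod p → (SL(2, ZMod p) → ℂ) := fun k => cus_e p k (fun y => (φ y : ℂ))
  have hmem : ∀ (k : ZMod p) (w : SL(2, ZMod p) → ℂ), w ∈ U →
      cus_e p k w ∈ Submodule.span ℂ (Set.range E) := by
    intro k w hw
    have h1 : cus_e p k w ∈ U := cus_mem htr k w hw
    by_cases hk : k = 0
    · have h2 : cus_e p k w = 0 := by
        apply hN _ h1
        intro b y
        rw [cus_shift, hk, zero_mul, AddChar.map_zero_eq_one, one_mul]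
      rw [h2]
      exact Submodule.zero_mem _
    · have hA : (fun y => ∑ u : (ZMod p)ˣ, cus_e p k w (sg u y)) ∈ U := by
        have h3 : (fun y => ∑ u : (ZMod p)ˣ, cus_e p k w (sg u y)) =
            ∑ u : (ZMod p)ˣ, fun y => cus_e p k w (sg u y) := by
          funext y
          rw [Finset.sum_apply]
        rw [h3]
        exact U.sum_mem fun u _ => hsg _ h1 u
      have hAinv := hlast _ hA (by
        intro v y
        show ∑ u : (ZMod p)ˣ, cus_e p k w (sg u (sg v y)) =
          ∑ u : (ZMod p)ˣ, cus_e p k w (sg u y)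
        simp only [sg_sg]
        exact Fintype.sum_equiv (Equiv.mulRight v) _ _ (fun u => rfl))
      have h4 := cus_key k hk (cus_e p k w) (fun c y => cus_shift p k w c y)
      have h5 : cus_e p k w = (∑ u : (ZMod p)ˣ, cus_e p k w (sg u 1)) • E k := by
        rw [← h4]
        funext y
        rw [h4]
        conv_lhs => rw [← h4]
        rw [Pi.smul_apply, smul_eq_mul]
        show (p : ℂ)⁻¹ * ∑ b : ZMod p, ZMod.stdAddChar (-(k * b)) *
          (∑ u : (ZMod p)ˣ, cus_e p k w (sg u (y * un b))) = _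
        show _ = (∑ u : (ZMod p)ˣ, cus_e p k w (sg u 1)) *
          ((p : ℂ)⁻¹ * ∑ b : ZMod p, ZMod.stdAddChar (-(k * b)) * (φ (y * un b) : ℂ))
        rw [mul_left_comm]
        congr 1
        rw [Finset.mul_sum]
        apply Finset.sum_congr rfl
        intro b _
        have h6 : ∑ u : (ZMod p)ˣ, cus_e p k w (sg u (y * un b)) =
            φ (y * un b) • ∑ u : (ZMod p)ˣ, cus_e p k w (sg u 1) := hAinv (y * un b)
        rw [h6, Complex.real_smul]
        ring
      rw [h5]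
      exact Submodule.smul_mem _ _ (Submodule.subset_span ⟨k, rfl⟩)
  have hle : U ≤ Submodule.span ℂ (Set.range E) := by
    intro w hw
    rw [← cus_sum p w]
    exact Submodule.sum_mem _ fun k _ => hmem k w hw
  have hfin : Module.Finite ℂ (Submodule.span ℂ (Set.range E)) :=
    Module.Finite.span_of_finite ℂ (Set.finite_range E)
  calc Module.finrank ℂ U ≤ Module.finrank ℂ (Submodule.span ℂ (Set.range E)) :=
        Submodule.finrank_mono hle
    _ ≤ Fintype.card (ZMod p) := finrank_range_le_card E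
    _ = p := ZMod.card p
    _ ≤ p + 1 := Nat.le_succ p

end Pool.Agent.Helper96.ME
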