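import Pool.Agent.Helper96.ME.Lib

/-!
# MP_bde085_nt, block E: module PRDS (products and isomorphisms)
-/

set_option autoImplicit false

namespace Pool.Agent.Helper96.ME

open Pool.Agent.Helper96.MP
open scoped MatrixGroups

open Lib

section prds

variable {R₁ R₂ : Type} [CommRing R₁] [CommRing R₂]

theorem prds_det (g : SL(2, R₁)) (h : SL(2, R₂)) :
    Matrix.det (Matrix.of fun i j => ((g i j, h i j) : R₁ × R₂)) = 1 := by
  rw [Matrix.det_fin_two]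
  apply Prod.ext
  · show g 0 0 * g 1 1 - g 0 1 * g 1 0 = 1
    exact det1 g
  · show h 0 0 * h 1 1 - h 0 1 * h 1 0 = 1
    exact det1 h

/-- pairs of matrices -/
def prds_m (g : SL(2, R₁)) (h : SL(2, R₂)) : SL(2, R₁ × R₂) :=
  ⟨Matrix.of fun i j => ((g i j, h i j) : R₁ × R₂), prds_det g h⟩

theorem prds_ap (g : SL(2, R₁)) (h : SL(2, R₂)) (i j : Fin 2) :
    (prds_m g h) i j = (g i j, h i j) := rfl

theorem prds_one : prds_m (1 : SL(2, R₁)) (1 : SL(2, R₂)) = 1 := by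
  apply ext4 <;> rw [prds_ap] <;> simp

theorem prds_mul (g g' : SL(2, R₁)) (h h' : SL(2, R₂)) :
    prds_m g h * prds_m g' h' = prds_m (g * g') (h * h') := by
  apply ext4
  · rw [Pool.Agent.Helper96.ME.Lib.mul00, prds_ap, prds_ap, prds_ap, prds_ap, prds_ap,
      Pool.Agent.Helper96.ME.Lib.mul00, Pool.Agent.Helper96.ME.Lib.mul00]; rfl
  · rw [Pool.Agent.Helper96.ME.Lib.mul01, prds_ap, prds_ap, prds_ap, prds_ap, prds_ap,
      Pool.Agent.Helper96.ME.Lib.mul01, Pool.Agent.Helper96.ME.Lib.mul01]; rfl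
  · rw [Pool.Agent.Helper96.ME.Lib.mul10, prds_ap, prds_ap, prds_ap, prds_ap, prds_ap,
      Pool.Agent.Helper96.ME.Lib.mul10, Pool.Agent.Helper96.ME.Lib.mul10]; rfl
  · rw [Pool.Agent.Helper96.ME.Lib.mul11, prds_ap, prds_ap, prds_ap, prds_ap, prds_ap,
      Pool.Agent.Helper96.ME.Lib.mul11, Pool.Agent.Helper96.ME.Lib.mul11]; rfl

theorem prds_inv (g : SL(2, R₁)) (h : SL(2, R₂)) : (prds_m g h)⁻¹ = prds_m g⁻¹ h⁻¹ := by
  rw [inv_eq_iff_mul_eq_one, prds_mul, mul_inv_cancel, mul_inv_cancel, prds_one]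

theorem prds_d1 (x : SL(2, R₁ × R₂)) :
    Matrix.det (Matrix.of fun i j => ((x i j).1 : R₁)) = 1 := by
  have h := det1 x
  rw [Matrix.det_fin_two]
  exact congrArg Prod.fst h

theorem prds_d2 (x : SL(2, R₁ × R₂)) :
    Matrix.det (Matrix.of fun i j => ((x i j).2 : R₂)) = 1 := by
  have h := det1 x
  rw [Matrix.det_fin_two]
  exact congrArg Prod.snd h

/-- the equivalence -/
def prds_E : SL(2, R₁) × SL(2, R₂) ≃ SL(2, R₁ × R₂) where
  toFun x := prds_m x.1 x.2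
  invFun x := (⟨Matrix.of fun i j => ((x i j).1 : R₁), prds_d1 x⟩,
    ⟨Matrix.of fun i j => ((x i j).2 : R₂), prds_d2 x⟩)
  left_inv x := by
    apply Prod.ext
    · apply ext4 <;> rfl
    · apply ext4 <;> rfl
  right_inv x := by
    apply ext4 <;> rfl

/-- pairs of units -/
def prds_u (u : R₁ˣ) (v : R₂ˣ) : (R₁ × R₂)ˣ := MulEquiv.prodUnits.symm (u, v)

theorem prds_u_val (u : R₁ˣ) (v : R₂ˣ) :
    ((prds_u u v : (R₁ × R₂)ˣ) : R₁ × R₂) = ((u : R₁), (v : R₂)) := rfl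

theorem prds_u_inv (u : R₁ˣ) (v : R₂ˣ) :
    (((prds_u u v)⁻¹ : (R₁ × R₂)ˣ) : R₁ × R₂) = (((u⁻¹ : R₁ˣ) : R₁), ((v⁻¹ : R₂ˣ) : R₂)) := rfl

theorem prds_dg (u : R₁ˣ) (v : R₂ˣ) :
    dg (prds_u u v) = prds_m (dg u) (dg v) := by
  apply ext4 <;> rfl

theorem prds_sg (u : R₁ˣ) (v : R₂ˣ) (g : SL(2, R₁)) (h : SL(2, R₂)) :
    sg (prds_u u v) (prds_m g h) = prds_m (sg u g) (sg v h) := by
  apply ext4 <;> rfl

theorem prds_dg_surj (w : (R₁ × R₂)ˣ) : ∃ (u : R₁ˣ) (v : R₂ˣ), w = prds_u u v :=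
  ⟨(MulEquiv.prodUnits w).1, (MulEquiv.prodUnits w).2,
    (MulEquiv.prodUnits.symm_apply_apply w).symm⟩

theorem prds_sumU [Finite R₁] [Finite R₂] (F : (R₁ × R₂)ˣ → ℝ) :
    ∑ᶠ w : (R₁ × R₂)ˣ, F w = ∑ᶠ u : R₁ˣ, ∑ᶠ v : R₂ˣ, F (prds_u u v) := by
  have : Fintype R₁ˣ := Fintype.ofFinite _
  have : Fintype R₂ˣ := Fintype.ofFinite _
  have : Fintype (R₁ × R₂)ˣ := Fintype.ofFinite _
  rw [finsum_eq_sum_of_fintype, finsum_eq_sum_of_fintype]
  have h1 : ∀ u : R₁ˣ, ∑ᶠ v : R₂ˣ, F (prds_u u v) = ∑ v : R₂ˣ, F (prds_u u v) := fun u =>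
    finsum_eq_sum_of_fintype _
  rw [Finset.sum_congr rfl (fun u _ => h1 u), ← Fintype.sum_prod_type']
  exact (Fintype.sum_equiv (MulEquiv.prodUnits (M := R₁) (N := R₂)).toEquiv _ _
    (fun w => by
      show F w = F (MulEquiv.prodUnits.symm (MulEquiv.prodUnits w))
      rw [MulEquiv.symm_apply_apply]))

theorem prds_cardU [Finite R₁] [Finite R₂] :
    (Nat.card (R₁ × R₂)ˣ : ℝ) = (Nat.card R₁ˣ : ℝ) * (Nat.card R₂ˣ : ℝ) := by
  rw [Nat.card_congr (MulEquiv.prodUnits (M := R₁) (N := R₂)).toEquiv, Nat.card_prod]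
  push_cast
  rfl

theorem prds_const {ι : Type} [Finite ι] (c : ℝ) : ∑ᶠ _ : ι, c = (Nat.card ι : ℝ) * c := by
  have : Fintype ι := Fintype.ofFinite _
  rw [finsum_eq_sum_of_fintype, Finset.sum_const, Finset.card_univ, nsmul_eq_mul,
    Nat.card_eq_fintype_card]

theorem prds_mulsum {ι : Type} [Finite ι] (c : ℝ) (f : ι → ℝ) :
    ∑ᶠ i : ι, c * f i = c * ∑ᶠ i : ι, f i := by
  have : Fintype ι := Fintype.ofFinite _
  rw [finsum_eq_sum_of_fintype, finsum_eq_sum_of_fintype, Finset.mul_sum]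

theorem prds_card0 {R : Type} [CommRing R] [Finite R] : (Nat.card Rˣ : ℝ) ≠ 0 := by
  exact_mod_cast (Nat.card_pos).ne'

variable [Finite R₁] [Finite R₂] {φ : SL(2, R₁ × R₂) → ℝ}

theorem prds_left (hφ : Sph0 (R₁ × R₂) φ) :
    Sph0 R₁ (fun g => φ (prds_m g 1)) := by
  refine ⟨?_, ?_, ?_, ?_⟩
  · show φ (prds_m 1 1) = 1
    rw [prds_one, hφ.one]
  · intro u g
    show φ (prds_m (dg u * g) 1) = φ (prds_m g 1)
    have h := hφ.left (prds_u u 1) (prds_m g 1)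
    rw [prds_dg, prds_mul, dg_one, one_mul] at h
    exact h
  · intro u g
    show φ (prds_m (sg u g) 1) = φ (prds_m g 1)
    have h := hφ.sig (prds_u u 1) (prds_m g 1)
    rw [prds_sg, sg_one] at h
    exact h
  · intro g h
    show ∑ᶠ u : R₁ˣ, φ (prds_m (g * sg u h) 1) =
      (Nat.card R₁ˣ : ℝ) * (φ (prds_m g 1) * φ (prds_m h 1))
    have h1 := hφ.sph (prds_m g 1) (prds_m h 1)
    rw [prds_sumU] at h1
    have h2 : ∀ (u : R₁ˣ) (v : R₂ˣ), φ (prds_m g 1 * sg (prds_u u v) (prds_m h 1)) =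
        φ (prds_m (g * sg u h) 1) := by
      intro u v
      rw [prds_sg, prds_mul, sg_of_one, mul_one]
    simp only [h2, prds_const, prds_mulsum] at h1
    rw [prds_cardU] at h1
    have h3 := prds_card0 (R := R₂)
    apply mul_left_cancel₀ h3
    rw [h1]
    ring

theorem prds_right (hφ : Sph0 (R₁ × R₂) φ) :
    Sph0 R₂ (fun g => φ (prds_m 1 g)) := by
  refine ⟨?_, ?_, ?_, ?_⟩
  · show φ (prds_m 1 1) = 1
    rw [prds_one, hφ.one]
  · intro u g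
    show φ (prds_m 1 (dg u * g)) = φ (prds_m 1 g)
    have h := hφ.left (prds_u 1 u) (prds_m 1 g)
    rw [prds_dg, prds_mul, dg_one, one_mul] at h
    exact h
  · intro u g
    show φ (prds_m 1 (sg u g)) = φ (prds_m 1 g)
    have h := hφ.sig (prds_u 1 u) (prds_m 1 g)
    rw [prds_sg, sg_one] at h
    exact h
  · intro g h
    show ∑ᶠ u : R₂ˣ, φ (prds_m 1 (g * sg u h)) =
      (Nat.card R₂ˣ : ℝ) * (φ (prds_m 1 g) * φ (prds_m 1 h))
    have h1 := hφ.sph (prds_m 1 g) (prds_m 1 h)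
    rw [prds_sumU] at h1
    have h2 : ∀ (u : R₁ˣ) (v : R₂ˣ), φ (prds_m 1 g * sg (prds_u u v) (prds_m 1 h)) =
        φ (prds_m 1 (g * sg v h)) := by
      intro u v
      rw [prds_sg, prds_mul, sg_of_one, mul_one]
    simp only [h2, prds_const] at h1
    rw [prds_cardU] at h1
    have h3 := prds_card0 (R := R₁)
    apply mul_left_cancel₀ h3
    rw [h1]
    ring

theorem prds_prod (hφ : Sph0 (R₁ × R₂) φ) (g : SL(2, R₁)) (h : SL(2, R₂)) :
    φ (prds_m g h) = φ (prds_m g 1) * φ (prds_m 1 h) := by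
  have h1 := hφ.sph (prds_m g 1) (prds_m 1 h)
  rw [prds_sumU] at h1
  have h2 : ∀ (u : R₁ˣ) (v : R₂ˣ), φ (prds_m g 1 * sg (prds_u u v) (prds_m 1 h)) =
      φ (prds_m g h) := by
    intro u v
    rw [prds_sg, prds_mul, sg_of_one, mul_one, one_mul]
    have h3 := hφ.sig (prds_u 1 v) (prds_m g h)
    rw [prds_sg, sg_one] at h3
    exact h3
  simp only [h2, prds_const] at h1
  rw [prds_cardU] at h1
  have h3 := prds_card0 (R := R₁)
  have h4 := prds_card0 (R := R₂)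
  have h5 : (Nat.card R₁ˣ : ℝ) * (Nat.card R₂ˣ : ℝ) ≠ 0 := mul_ne_zero h3 h4
  apply mul_left_cancel₀ h5
  rw [← h1]
  ring

theorem prds_sq (hφ : Sph0 (R₁ × R₂) φ) :
    sq φ = sq (fun g => φ (prds_m g 1)) * sq (fun h => φ (prds_m 1 h)) := by
  have : Fintype SL(2, R₁) := Fintype.ofFinite _
  have : Fintype SL(2, R₂) := Fintype.ofFinite _
  have : Fintype SL(2, R₁ × R₂) := Fintype.ofFinite _
  unfold sq
  rw [finsum_eq_sum_of_fintype, finsum_eq_sum_of_fintype, finsum_eq_sum_of_fintype,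
    Finset.sum_mul_sum, ← Fintype.sum_prod_type']
  symm
  apply Fintype.sum_equiv prds_E
  rintro ⟨g, h⟩
  show φ (prds_m g 1) ^ 2 * φ (prds_m 1 h) ^ 2 = φ (prds_m g h) ^ 2
  rw [prds_prod hφ g h, mul_pow]

omit [Finite R₁] [Finite R₂] in
theorem prds_cardG :
    (Nat.card SL(2, R₁ × R₂) : ℝ) = (Nat.card SL(2, R₁) : ℝ) * (Nat.card SL(2, R₂) : ℝ) := by
  rw [← Nat.card_congr (prds_E (R₁ := R₁) (R₂ := R₂)), Nat.card_prod]
  push_cast
  rfl

end prds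

section iso

variable {R R' : Type} [CommRing R] [CommRing R'] (e : R ≃+* R')

/-- transport of matrices -/
def prds_t : SL(2, R) ≃ SL(2, R') where
  toFun := Matrix.SpecialLinearGroup.map (e : R →+* R')
  invFun := Matrix.SpecialLinearGroup.map (e.symm : R' →+* R)
  left_inv g := by
    apply ext4 <;> simp
  right_inv g := by
    apply ext4 <;> simp

theorem prds_t_ap (g : SL(2, R)) (i j : Fin 2) : (prds_t e g) i j = e (g i j) := rfl

theorem prds_t_mul (g h : SL(2, R)) : prds_t e (g * h) = prds_t e g * prds_t e h :=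
  map_mul (Matrix.SpecialLinearGroup.map (e : R →+* R')) g h

theorem prds_t_one : prds_t e 1 = 1 :=
  map_one (Matrix.SpecialLinearGroup.map (e : R →+* R'))

theorem prds_t_inv (g : SL(2, R)) : prds_t e g⁻¹ = (prds_t e g)⁻¹ :=
  map_inv (Matrix.SpecialLinearGroup.map (e : R →+* R')) g

/-- transport of units -/
def prds_v : Rˣ ≃ R'ˣ := (Units.mapEquiv e.toMulEquiv).toEquiv

theorem prds_v_val (u : Rˣ) : ((prds_v e u : R'ˣ) : R') = e (u : R) := rfl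

theorem prds_v_inv (u : Rˣ) : (((prds_v e u)⁻¹ : R'ˣ) : R') = e ((u⁻¹ : Rˣ) : R) := rfl

theorem prds_t_dg (u : Rˣ) : prds_t e (dg u) = dg (prds_v e u) := by
  apply ext4 <;> rw [prds_t_ap] <;> simp [prds_v_val, prds_v_inv]

theorem prds_t_sg (u : Rˣ) (g : SL(2, R)) :
    prds_t e (sg u g) = sg (prds_v e u) (prds_t e g) := by
  apply ext4 <;> rw [prds_t_ap] <;> simp [prds_v_val, prds_v_inv, prds_t_ap]

include e in
theorem prds_iso (k : ℝ) (h : Gd R k) : Gd R' k := by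
  intro φ hφ
  have h0 : Sph0 R (fun g => φ (prds_t e g)) := by
    refine ⟨?_, ?_, ?_, ?_⟩
    · show φ (prds_t e 1) = 1
      rw [prds_t_one, hφ.one]
    · intro u g
      show φ (prds_t e (dg u * g)) = φ (prds_t e g)
      rw [prds_t_mul, prds_t_dg, hφ.left]
    · intro u g
      show φ (prds_t e (sg u g)) = φ (prds_t e g)
      rw [prds_t_sg, hφ.sig]
    · intro g h
      show ∑ᶠ u : Rˣ, φ (prds_t e (g * sg u h)) =
        (Nat.card Rˣ : ℝ) * (φ (prds_t e g) * φ (prds_t e h))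
      rw [Nat.card_congr (prds_v e), ← hφ.sph]
      rw [← finsum_comp_equiv (prds_v e)]
      apply finsum_congr
      intro u
      rw [prds_t_mul, prds_t_sg]
  obtain ⟨h1, h2⟩ := h _ h0
  refine ⟨⟨hφ.one, hφ.left, hφ.sig, hφ.sph, ?_⟩, ?_⟩
  · intro g
    obtain ⟨g, rfl⟩ := (prds_t e).surjective g
    rw [← prds_t_inv]
    exact h1.inv g
  · rw [← Nat.card_congr (prds_t e)]
    have h3 : sq φ = sq (fun g => φ (prds_t e g)) := by
      unfold sq
      rw [← finsum_comp_equiv (prds_t e)]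
    rw [h3]
    exact h2

end iso

theorem st_PRDS : ST_PRDS := by
  refine ⟨?_, fun R R' _ _ e k h => prds_iso e k h⟩
  intro R₁ R₂ _ _ _ _ k₁ k₂ hk₁ hk₂ h₁ h₂ φ hφ
  obtain ⟨s1, c1⟩ := h₁ _ (prds_left hφ)
  obtain ⟨s2, c2⟩ := h₂ _ (prds_right hφ)
  refine ⟨⟨hφ.one, hφ.left, hφ.sig, hφ.sph, ?_⟩, ?_⟩
  · intro x
    obtain ⟨⟨g, h⟩, rfl⟩ := (prds_E (R₁ := R₁) (R₂ := R₂)).surjective x
    show φ (prds_m g h)⁻¹ = φ (prds_m g h)
    rw [prds_inv, prds_prod hφ, prds_prod hφ g h]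
    have e1 : φ (prds_m g⁻¹ 1) = φ (prds_m g 1) := s1.inv g
    have e2 : φ (prds_m 1 h⁻¹) = φ (prds_m 1 h) := s2.inv h
    rw [e1, e2]
  · rw [prds_cardG, prds_sq hφ]
    calc (Nat.card SL(2, R₁) : ℝ) * (Nat.card SL(2, R₂) : ℝ)
        ≤ (k₁ * sq (fun g => φ (prds_m g 1))) * (k₂ * sq (fun h => φ (prds_m 1 h))) := by
          apply mul_le_mul c1 c2 (Nat.cast_nonneg _) (le_trans (Nat.cast_nonneg _) c1)
      _ = k₁ * k₂ * (sq (fun g => φ (prds_m g 1)) * sq (fun h => φ (prds_m 1 h))) := by ring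

end Pool.Agent.Helper96.ME
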